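import Pool.Agent.H547.CW.Stm

/-!
# CW64, statement S_G: the recurrence modulo p for the sums Sg
-/

set_option autoImplicit false

namespace Pool.Agent.H169.CW64G

open Finset Pool.Agent.R439.PL Pool.Agent.H547 Pool.Agent.H547.CV Pool.Agent.H547.CW
open scoped Nat

/-! ## Exact relations -/

theorem po_zero (x : ℚ) : po x 0 = 1 := by unfold po; simp

theorem po_succ (x : ℚ) (k : ℕ) : po x (k + 1) = po x k * (x + k) := by
  unfold po; rw [prod_range_succ]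

theorem po_shift (x : ℚ) (k : ℕ) : x * po (x + 1) k = po x k * (x + k) := by
  induction k with
  | zero => simp [po_zero]
  | succ k ih =>
    rw [po_succ, po_succ, ← mul_assoc, ih]
    push_cast
    ring

theorem po_ne {x : ℚ} (h : ∀ i : ℕ, x + i ≠ 0) (k : ℕ) : po x k ≠ 0 := by
  unfold po
  exact prod_ne_zero_iff.2 fun i _ => h i

theorem one1 (j s : ℕ) : (2 * (j : ℚ) + 1 - 4 * s) ≠ 0 := by
  have : ((2 * (j : ℤ) + 1 - 4 * s : ℤ) : ℚ) ≠ 0 := by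
    intro h
    have : (2 * (j : ℤ) + 1 - 4 * s : ℤ) = 0 := by exact_mod_cast h
    omega
  push_cast at this
  exact this

theorem one2 (j s : ℕ) : (2 * (j : ℚ) - 1 - 4 * s) ≠ 0 := by
  have : ((2 * (j : ℤ) - 1 - 4 * s : ℤ) : ℚ) ≠ 0 := by
    intro h
    have : (2 * (j : ℤ) - 1 - 4 * s : ℤ) = 0 := by exact_mod_cast h
    omega
  push_cast at this
  exact this

theorem one3 (j s : ℕ) : (2 * (j : ℚ) - 3 - 4 * s) ≠ 0 := by
  have : ((2 * (j : ℤ) - 3 - 4 * s : ℤ) : ℚ) ≠ 0 := by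
    intro h
    have : (2 * (j : ℤ) - 3 - 4 * s : ℤ) = 0 := by exact_mod_cast h
    omega
  push_cast at this
  exact this

theorem tau_ne (s : ℕ) : tau s ≠ 0 := by
  unfold tau
  refine pow_ne_zero _ (div_ne_zero (po_ne (fun i => ?_) s) (po_ne (fun i => ?_) s)) <;> positivity

theorem f_ne (s k : ℕ) : f s k ≠ 0 := by
  unfold f
  have h1 : po (1 / 2 + 2 * s) k ≠ 0 := po_ne (fun i => by positivity) k
  have h2 : po (1 / 2 - 2 * s) k ≠ 0 := po_ne (fun i => by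
    have := one1 i s
    intro h
    apply this
    linear_combination 2 * h) k
  have h3 : po (1 / 2) k ≠ 0 := po_ne (fun i => by positivity) k
  have h4 : ((k ! : ℕ) : ℚ) ≠ 0 := by exact_mod_cast Nat.factorial_ne_zero k
  exact div_ne_zero (mul_ne_zero (mul_ne_zero (mul_ne_zero (tau_ne s) h1) h2) h3)
    (pow_ne_zero _ h4)

theorem f_zero (s : ℕ) : f s 0 = tau s := by
  unfold f
  simp [po_zero]

theorem f_succ (s k : ℕ) : f s (k + 1) = f s k *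
    ((2 * k + 1 + 4 * s) * (2 * k + 1 - 4 * s) * (2 * k + 1) / (8 * ((k : ℚ) + 1) ^ 3)) := by
  have h4 : ((k ! : ℕ) : ℚ) ≠ 0 := by exact_mod_cast Nat.factorial_ne_zero k
  have h5 : (k : ℚ) + 1 ≠ 0 := by positivity
  unfold f
  rw [po_succ, po_succ, po_succ, Nat.factorial_succ]
  push_cast
  field_simp
  ring

theorem tau_succ (s : ℕ) : tau (s + 1) = tau s * ((4 * s + 3) / (4 * s + 1)) ^ 2 := by
  unfold tau
  rw [po_succ, po_succ]
  have h1 : po (1 / 4) s ≠ 0 := po_ne (fun i => by positivity) s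
  have h2 : (1 / 4 : ℚ) + s ≠ 0 := by positivity
  have h3 : (4 * (s : ℚ) + 1) ≠ 0 := by positivity
  field_simp
  ring

theorem f_s (s k : ℕ) : f (s + 1) k = f s k * (((4 * s + 3) / (4 * s + 1)) ^ 2 *
    ((2 * k + 1 + 4 * s) * (2 * k + 3 + 4 * s) / ((2 * k - 1 - 4 * s) * (2 * k - 3 - 4 * s)))) := by
  have h4 : ((k ! : ℕ) : ℚ) ≠ 0 := by exact_mod_cast Nat.factorial_ne_zero k
  have a1 : (1 / 2 + 2 * (s : ℚ)) ≠ 0 := by positivity
  have a2 : (1 / 2 + 2 * (s : ℚ) + 1) ≠ 0 := by positivity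
  have e1 := po_shift (1 / 2 + 2 * (s : ℚ)) k
  have e2 := po_shift (1 / 2 + 2 * (s : ℚ) + 1) k
  have e3 := po_shift (1 / 2 - 2 * ((s : ℚ) + 1)) k
  have e4 := po_shift (1 / 2 - 2 * ((s : ℚ) + 1) + 1) k
  rw [show (1 / 2 + 2 * (s : ℚ) + 1 + 1) = 1 / 2 + 2 * ((s : ℚ) + 1) by ring] at e2
  rw [show (1 / 2 - 2 * ((s : ℚ) + 1) + 1 + 1) = 1 / 2 - 2 * (s : ℚ) by ring] at e4
  have n1 := one2 k s
  have n2 := one3 k s
  have n3 : (4 * (s : ℚ) + 1) ≠ 0 := by positivity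
  unfold f
  rw [tau_succ]
  push_cast
  -- the two rising factorials
  have g1 : po (1 / 2 + 2 * ((s : ℚ) + 1)) k = po (1 / 2 + 2 * s) k *
      ((2 * k + 1 + 4 * s) * (2 * k + 3 + 4 * s) / ((4 * s + 1) * (4 * s + 3))) := by
    have h : (1 / 2 + 2 * (s : ℚ)) * ((1 / 2 + 2 * (s : ℚ) + 1) *
        po (1 / 2 + 2 * ((s : ℚ) + 1)) k) =
        po (1 / 2 + 2 * s) k * ((1 / 2 + 2 * (s : ℚ) + k) * (1 / 2 + 2 * (s : ℚ) + 1 + k)) := by
      rw [e2]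
      linear_combination (1 / 2 + 2 * (s : ℚ) + 1 + k) * e1
    have n4 : (4 * (s : ℚ) + 3) ≠ 0 := by positivity
    rw [mul_div_assoc', eq_div_iff (mul_ne_zero n3 n4)]
    linear_combination 4 * h
  have g2 : po (1 / 2 - 2 * ((s : ℚ) + 1)) k = po (1 / 2 - 2 * s) k *
      ((4 * s + 1) * (4 * s + 3) / ((2 * k - 1 - 4 * s) * (2 * k - 3 - 4 * s))) := by
    have h : (1 / 2 - 2 * ((s : ℚ) + 1)) * ((1 / 2 - 2 * ((s : ℚ) + 1) + 1) *
        po (1 / 2 - 2 * (s : ℚ)) k) = po (1 / 2 - 2 * ((s : ℚ) + 1)) k *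
          ((1 / 2 - 2 * ((s : ℚ) + 1) + k) * (1 / 2 - 2 * ((s : ℚ) + 1) + 1 + k)) := by
      rw [e4]
      linear_combination (1 / 2 - 2 * ((s : ℚ) + 1) + 1 + k) * e3
    rw [mul_div_assoc', eq_div_iff (mul_ne_zero n1 n2)]
    linear_combination -4 * h
  rw [g1, g2]
  have n4 : (4 * (s : ℚ) + 3) ≠ 0 := by positivity
  field_simp

/-- the telescoping function -/
def GH (s k : ℕ) : ℚ := tau s ^ 2 * (32 * (4 * s + 2) / (4 * s + 1) ^ 2) /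
  (f s k * ((2 * k + 1 + 4 * s) * (2 * k + 3 + 4 * s)))

theorem g_diff (s j : ℕ) : tau (s + 1) ^ 2 / (((j : ℚ) + 1) ^ 3 * f (s + 1) (j + 1)) -
    tau s ^ 2 / (((j : ℚ) + 1) ^ 3 * f s (j + 1)) = GH s j - GH s (j + 1) := by
  have hv := f_ne s j
  obtain ⟨v, hv'⟩ : ∃ v, v = f s j := ⟨_, rfl⟩
  unfold GH
  rw [f_s, f_succ, tau_succ, ← hv']
  rw [← hv'] at hv
  have n1 := one1 j s
  have n2 := one2 j s
  have n3 : (4 * (s : ℚ) + 1) ≠ 0 := by positivity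
  have n4 : (4 * (s : ℚ) + 3) ≠ 0 := by positivity
  have n5 : (2 * (j : ℚ) + 1 + 4 * s) ≠ 0 := by positivity
  have n6 : (2 * (j : ℚ) + 3 + 4 * s) ≠ 0 := by positivity
  have n7 : (2 * (j : ℚ) + 5 + 4 * s) ≠ 0 := by positivity
  have n8 : (j : ℚ) + 1 ≠ 0 := by positivity
  have n9 : 2 * (j : ℚ) + 1 ≠ 0 := by positivity
  push_cast
  rw [show 2 * ((j : ℚ) + 1) + 1 + 4 * s = 2 * j + 3 + 4 * s by ring,
    show 2 * ((j : ℚ) + 1) + 3 + 4 * s = 2 * j + 5 + 4 * s by ring,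
    show 2 * ((j : ℚ) + 1) - 1 - 4 * s = 2 * j + 1 - 4 * s by ring,
    show 2 * ((j : ℚ) + 1) - 3 - 4 * s = 2 * j - 1 - 4 * s by ring]
  obtain ⟨a, ha⟩ : ∃ a : ℚ, a = 2 * j + 1 - 4 * s := ⟨_, rfl⟩
  obtain ⟨b, hb⟩ : ∃ b : ℚ, b = 2 * j - 1 - 4 * s := ⟨_, rfl⟩
  rw [← ha] at n1 ⊢
  rw [← hb] at n2 ⊢
  field_simp
  rw [ha, hb]
  ring

theorem Gg (s j : ℕ) : G s (j + 1) * (tau (s + 1) ^ 2 / (((j : ℚ) + 1) ^ 3 * f (s + 1) (j + 1))) =
    -(32 * (4 * s + 2) * (4 * s + 3) ^ 2 / (4 * s + 1) ^ 4) * tau s ^ 2 /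
      ((2 * j + 3 + 4 * s) * (2 * j + 5 + 4 * s)) := by
  have hv := f_ne s (j + 1)
  obtain ⟨v, hv'⟩ : ∃ v, v = f s (j + 1) := ⟨_, rfl⟩
  unfold G
  rw [f_s, tau_succ, ← hv']
  rw [← hv'] at hv
  have n1 := one1 j s
  have n2 := one2 j s
  have n3 : (4 * (s : ℚ) + 1) ≠ 0 := by positivity
  have n4 : (4 * (s : ℚ) + 3) ≠ 0 := by positivity
  have n6 : (2 * (j : ℚ) + 3 + 4 * s) ≠ 0 := by positivity
  have n7 : (2 * (j : ℚ) + 5 + 4 * s) ≠ 0 := by positivity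
  have n8 : (j : ℚ) + 1 ≠ 0 := by positivity
  push_cast
  rw [show 2 * ((j : ℚ) + 1) + 1 + 4 * s = 2 * j + 3 + 4 * s by ring,
    show 2 * ((j : ℚ) + 1) + 3 + 4 * s = 2 * j + 5 + 4 * s by ring,
    show 2 * ((j : ℚ) + 1) - 1 - 4 * s = 2 * j + 1 - 4 * s by ring,
    show 2 * ((j : ℚ) + 1) - 3 - 4 * s = 2 * j - 1 - 4 * s by ring]
  field_simp

theorem fGH (s k : ℕ) : f s k * GH s k = 32 * (4 * s + 2) / (4 * s + 1) ^ 2 * tau s ^ 2 /
    ((2 * k + 1 + 4 * s) * (2 * k + 3 + 4 * s)) := by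
  have hv := f_ne s k
  unfold GH
  have n3 : (4 * (s : ℚ) + 1) ≠ 0 := by positivity
  have n5 : (2 * (k : ℚ) + 1 + 4 * s) ≠ 0 := by positivity
  have n6 : (2 * (k : ℚ) + 3 + 4 * s) ≠ 0 := by positivity
  field_simp

theorem Psi_succ' (s k : ℕ) : Psi s (k + 1) = Psi s k + f s k := by
  unfold Psi
  rw [sum_range_succ]

theorem Psi_s (hZ : S_Z) (s k : ℕ) : Psi (s + 1) k = Psi s k + G s k := by
  induction k with
  | zero => simp [Psi, G]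
  | succ k ih =>
    rw [Psi_succ', Psi_succ', ih]
    linear_combination hZ s k

/-- the exact formula -/
theorem main_sum (hZ : S_Z) (s N : ℕ) :
    ∑ k ∈ range N, Psi (s + 1) (k + 1) * tau (s + 1) ^ 2 / (((k : ℚ) + 1) ^ 3 * f (s + 1) (k + 1)) -
      ∑ k ∈ range N, Psi s (k + 1) * tau s ^ 2 / (((k : ℚ) + 1) ^ 3 * f s (k + 1)) =
    tau s ^ 2 * (-(16 * (4 * s + 2) * (4 * s + 3) ^ 2 / (4 * s + 1) ^ 4) *
      (1 / (4 * s + 3) - 1 / (2 * N + 3 + 4 * s)) + 16 * (4 * s + 2) / (4 * s + 1) ^ 2 *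
      (1 / (4 * s + 1) - 1 / (2 * N + 1 + 4 * s))) - Psi s N * GH s N := by
  induction N with
  | zero =>
    simp only [range_zero, sum_empty, Psi]
    push_cast
    ring
  | succ N ih =>
    rw [sum_range_succ, sum_range_succ]
    have e1 := g_diff s N
    have e2 := Gg s N
    have e3 := fGH s N
    have e4 := Psi_s hZ s (N + 1)
    have e5 := Psi_succ' s N
    have n3 : (4 * (s : ℚ) + 1) ≠ 0 := by positivity
    have n4 : (4 * (s : ℚ) + 3) ≠ 0 := by positivity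
    have n5 : (2 * (N : ℚ) + 1 + 4 * s) ≠ 0 := by positivity
    have n6 : (2 * (N : ℚ) + 3 + 4 * s) ≠ 0 := by positivity
    have n7 : (2 * (N : ℚ) + 5 + 4 * s) ≠ 0 := by positivity
    have r1 : 32 * (4 * (s : ℚ) + 2) / (4 * s + 1) ^ 2 * tau s ^ 2 /
        ((2 * N + 1 + 4 * s) * (2 * N + 3 + 4 * s)) = tau s ^ 2 * (16 * (4 * (s : ℚ) + 2) /
          (4 * s + 1) ^ 2 * (1 / (2 * N + 1 + 4 * s) - 1 / (2 * N + 3 + 4 * s))) := by
      field_simp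
      ring
    have r2 : -(32 * (4 * (s : ℚ) + 2) * (4 * s + 3) ^ 2 / (4 * s + 1) ^ 4) * tau s ^ 2 /
        ((2 * N + 3 + 4 * s) * (2 * N + 5 + 4 * s)) = tau s ^ 2 * (-(16 * (4 * (s : ℚ) + 2) *
          (4 * s + 3) ^ 2 / (4 * s + 1) ^ 4) *
          (1 / (2 * N + 3 + 4 * s) - 1 / (2 * N + 5 + 4 * s))) := by
      field_simp
      ring
    rw [r1] at e3
    rw [r2] at e2
    push_cast
    rw [show 2 * ((N : ℚ) + 1) + 1 + 4 * s = 2 * N + 3 + 4 * s by ring,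
      show 2 * ((N : ℚ) + 1) + 3 + 4 * s = 2 * N + 5 + 4 * s by ring]
    rw [mul_div_assoc, mul_div_assoc, e4]
    rw [e5] at *
    linear_combination ih + (Psi s N + f s N) * e1 + e2 + e3

/-! ## Units -/

variable {p : ℕ} [hp : Fact p.Prime]

theorem uZ {z : ℤ} (h0 : z ≠ 0) (h : |z| < p) : U p (z : ℚ) := by
  refine U_int fun hd => h0 (Int.eq_zero_of_abs_lt_dvd hd h)

theorem uZ2 (h2 : 2 < p) {z : ℤ} (h0 : z ≠ 0) (h : |z| < p) {x : ℚ} (hx : 2 * x = z) : U p x := by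
  have e : x = z / 2 := by rw [← hx]; ring
  rw [e]
  exact (uZ h0 h).div (u2 h2)

theorem uZ4 (h2 : 2 < p) {z : ℤ} (h0 : z ≠ 0) (h : |z| < p) {x : ℚ} (hx : 4 * x = z) : U p x := by
  have e : x = z / (2 * 2) := by rw [← hx]; ring
  rw [e]
  exact (uZ h0 h).div ((u2 h2).mul (u2 h2))

theorem mZ2 (h2 : 2 < p) {z : ℤ} {x : ℚ} (hx : 2 * x = z) : x ∈ Zp p := by
  have e : x = z / 2 := by rw [← hx]; ring
  rw [e]
  exact dmem (int_mem z) (u2 h2)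

theorem uFac {k : ℕ} (hk : k < p) : U p ((k ! : ℕ) : ℚ) := by
  have h : ¬ (p : ℤ) ∣ ((k ! : ℕ) : ℤ) := by
    intro h
    have h1 := (hp.out.dvd_factorial).1 (Int.natCast_dvd_natCast.1 h)
    omega
  exact_mod_cast U_int h

section
variable {M s m : ℕ} (hM : p = 4 * M + 3) (hm : m + 2 * s = 2 * M + 1)
include hM hm

theorem tau_U : U p (tau s) := by
  have h2 : 2 < p := by omega
  unfold tau po
  refine U.pow (U.div (U.prod fun i hi => ?_) (U.prod fun i hi => ?_)) 2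
  · rw [mem_range] at hi
    refine uZ4 h2 (z := 4 * i + 3) (by omega) (by rw [abs_lt]; omega) ?_
    push_cast
    ring
  · rw [mem_range] at hi
    refine uZ4 h2 (z := 4 * i + 1) (by omega) (by rw [abs_lt]; omega) ?_
    push_cast
    ring

theorem f_U {k : ℕ} (hk : k ≤ m) : U p (f s k) := by
  have h2 : 2 < p := by omega
  unfold f
  refine U.div (((tau_U hM hm).mul (U.prod fun i hi => ?_)).mul (U.prod fun i hi => ?_) |>.mul
    (U.prod fun i hi => ?_)) ((uFac (by omega)).pow 3)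
  · rw [mem_range] at hi
    refine uZ2 h2 (z := 4 * s + 2 * i + 1) (by omega) (by rw [abs_lt]; omega) ?_
    push_cast
    ring
  · rw [mem_range] at hi
    refine uZ2 h2 (z := 2 * i + 1 - 4 * s) (by omega) (by rw [abs_lt]; omega) ?_
    push_cast
    ring
  · rw [mem_range] at hi
    refine uZ2 h2 (z := 2 * i + 1) (by omega) (by rw [abs_lt]; omega) ?_
    push_cast
    ring

theorem f_I {k : ℕ} (hk : m < k) (hkp : k < p) : I p 1 (f s k) := by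
  have h2 : 2 < p := by omega
  unfold f
  rw [div_eq_mul_inv]
  have h1 : I p 1 (po (1 / 2 + 2 * s) k) := by
    unfold po
    rw [← Finset.mul_prod_erase (range k) _ (mem_range.2 hk)]
    refine I.mulR ?_ (prod_mem fun i _ => mZ2 h2 (z := 4 * s + 2 * i + 1) (by push_cast; ring))
    have e : (1 / 2 + 2 * (s : ℚ) + m) = (p : ℚ) * (2 : ℚ)⁻¹ := by
      have h3 : (m : ℚ) + 2 * s = 2 * M + 1 := by exact_mod_cast hm
      have h4 : (p : ℚ) = 4 * M + 3 := by exact_mod_cast hM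
      rw [h4]
      linear_combination h3
    rw [e]
    exact I_p.mulR (u2 h2).2.2
  refine I.mulR (I.mulR (I.mulR (I.mulL (tau_U hM hm).2.1 h1) ?_) ?_) ((uFac hkp).pow 3).2.2
  · exact prod_mem fun i _ => mZ2 h2 (z := 2 * i + 1 - 4 * s) (by push_cast; ring)
  · exact prod_mem fun i _ => mZ2 h2 (z := 2 * i + 1) (by push_cast; ring)

theorem Psi_I (hP : S_P) : I p 1 (Psi s (m + 1)) := by
  have h1 : I p 1 (Psi s p) := (hP p M hM s (by omega)).mono (by norm_num)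
  have h2 : Psi s (m + 1) + ∑ k ∈ Ico (m + 1) p, f s k = Psi s p :=
    Finset.sum_range_add_sum_Ico (f s) (by omega)
  have h3 : I p 1 (∑ k ∈ Ico (m + 1) p, f s k) := I.sum fun k hk => by
    rw [mem_Ico] at hk
    exact f_I hM hm (by omega) hk.2
  have e : Psi s (m + 1) = Psi s p - ∑ k ∈ Ico (m + 1) p, f s k := by rw [← h2]; ring
  rw [e]
  exact h1.sub h3

end

/-- the polynomial -/
def Ph (s v1 v3 P u1 u2 u3 u4 : ℚ) : ℚ :=
  16 * (4 * s + 2) * (4 * s + 3) ^ 2 * v1 ^ 4 * (u1 - v3) + 16 * (4 * s + 2) * v1 ^ 2 * (v1 - u2) +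
  (1 + (P - 4) * (P - 4 - 8 * s) * (P - 4 - 4 * s) * u4 ^ 3 *
    (1 + (P - 2) * (P - 2 - 8 * s) * (P - 2 - 4 * s) * u3 ^ 3)) *
      (32 * (4 * s + 2) * v1 ^ 2 * u1 * u2) +
  8 * (1 + (P - 2) * (P - 2 - 8 * s) * (P - 2 - 4 * s) * u3 ^ 3) * u4 ^ 3 + 8 * u3 ^ 3 +
  16 * (4 * s + 2) * v1 ^ 4

theorem Ph_zero (s : ℕ) : Ph s (1 / (4 * s + 1)) (1 / (4 * s + 3)) 0 (-1 / 2) (-1 / 4)
    (-(1 / (4 * s + 1))) (-(1 / (4 * s + 3))) = 0 := by
  have n3 : (4 * (s : ℚ) + 1) ≠ 0 := by positivity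
  have n4 : (4 * (s : ℚ) + 3) ≠ 0 := by positivity
  unfold Ph
  field_simp
  ring

theorem Ph_EQ {s v1 v3 P P' u1 u1' u2 u2' u3 u3' u4 u4' : ℚ} (hs : s ∈ Zp p) (hv1 : v1 ∈ Zp p)
    (hv3 : v3 ∈ Zp p) (hP : EQ p 1 P P') (h1 : EQ p 1 u1 u1') (h2 : EQ p 1 u2 u2')
    (h3 : EQ p 1 u3 u3') (h4 : EQ p 1 u4 u4') :
    EQ p 1 (Ph s v1 v3 P u1 u2 u3 u4) (Ph s v1 v3 P' u1' u2' u3' u4') := by
  have c : ∀ n : ℕ, ∀ [n.AtLeastTwo], EQ p 1 (OfNat.ofNat n : ℚ) (OfNat.ofNat n : ℚ) :=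
    fun n _ => EQ.refl (nm n)
  have c1 : EQ p 1 (1 : ℚ) 1 := EQ.refl (one_mem _)
  have cs : EQ p 1 s s := EQ.refl hs
  have cv1 : EQ p 1 v1 v1 := EQ.refl hv1
  have cv3 : EQ p 1 v3 v3 := EQ.refl hv3
  unfold Ph
  repeat first
    | exact c1
    | exact cs
    | exact cv1
    | exact cv3
    | exact hP
    | exact h1
    | exact h2
    | exact h3
    | exact h4
    | exact c _
    | apply EQ.add
    | apply EQ.sub
    | apply EQ.mul
    | apply EQ.pow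

theorem EQ_inv {x c : ℚ} (h : EQ p 1 x c) (hx : U p x) : EQ p 1 (1 / x) (1 / c) :=
  EQ.div one_pos (EQ.refl (one_mem _)) h hx

theorem case_one {M : ℕ} (hM : p = 4 * M + 3) :
    I p 1 (Sg (2 * M + 1) (M + 1) - Sg (2 * M + 1) M +
      16 * (4 * M + 2) * tau M ^ 2 / (4 * M + 1) ^ 4) := by
  have hm : 1 + 2 * M = 2 * M + 1 := by omega
  unfold Sg
  rw [show 2 * M + 1 - 2 * (M + 1) = 0 by omega, show 2 * M + 1 - 2 * M = 0 + 1 by omega,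
    sum_range_succ, sum_range_zero, sum_range_zero]
  have e1 : Psi M (0 + 1) = tau M := by rw [Psi_succ', f_zero]; simp [Psi]
  rw [e1, f_succ, f_zero]
  have h4 : (p : ℚ) = 4 * M + 3 := by exact_mod_cast hM
  have n1 : (4 * (M : ℚ) + 1) ≠ 0 := by positivity
  have n2 : (1 - 4 * (M : ℚ)) ≠ 0 := by
    have := one1 0 M
    intro h
    apply this
    push_cast
    linear_combination h
  have n3 := tau_ne M
  have u1 : U p (4 * (M : ℚ) + 1) := by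
    have := uZ (p := p) (z := 4 * M + 1) (by omega) (by rw [abs_lt]; omega)
    exact_mod_cast this
  have u2' : U p (1 - 4 * (M : ℚ)) := by
    have := uZ (p := p) (z := 1 - 4 * M) (by omega) (by rw [abs_lt]; omega)
    exact_mod_cast this
  refine ⟨tau M ^ 2 * (8 * (-(p : ℚ) ^ 2 + 4 * p - 2) / ((4 * M + 1) ^ 4 * (1 - 4 * M))),
    mul_mem (pow_mem (tau_U hM hm).2.1 2) (dmem (mul_mem (nm 8) (sub_mem (add_mem
      (neg_mem (pow_mem p_mem 2)) (mul_mem (nm 4) p_mem)) (nm 2))) ((u1.pow 4).mul u2')), ?_⟩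
  rw [h4]
  have n4 : 1 + 4 * (M : ℚ) ≠ 0 := by positivity
  push_cast
  rw [show 2 * (0 : ℚ) + 1 + 4 * M = 4 * M + 1 by ring,
    show 2 * (0 : ℚ) + 1 - 4 * M = 1 - 4 * M by ring]
  obtain ⟨b, hb⟩ : ∃ b : ℚ, b = 1 - 4 * M := ⟨_, rfl⟩
  rw [← hb] at n2 ⊢
  field_simp
  rw [hb]
  ring

theorem case_big (hZ : S_Z) (hP : S_P) {M s q : ℕ} (hM : p = 4 * M + 3)
    (hm : q + 3 + 2 * s = 2 * M + 1) :
    I p 1 (Sg (2 * M + 1) (s + 1) - Sg (2 * M + 1) s +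
      16 * (4 * s + 2) * tau s ^ 2 / (4 * s + 1) ^ 4) := by
  have key := main_sum hZ s (q + 1)
  have h1 : Sg (2 * M + 1) (s + 1) = ∑ k ∈ range (q + 1), Psi (s + 1) (k + 1) * tau (s + 1) ^ 2 /
      (((k : ℚ) + 1) ^ 3 * f (s + 1) (k + 1)) := by
    unfold Sg
    rw [show 2 * M + 1 - 2 * (s + 1) = q + 1 by omega]
  have h2 : Sg (2 * M + 1) s = ∑ k ∈ range (q + 1), Psi s (k + 1) * tau s ^ 2 /
      (((k : ℚ) + 1) ^ 3 * f s (k + 1)) +
        Psi s (q + 2) * tau s ^ 2 / (((q : ℚ) + 2) ^ 3 * f s (q + 2)) +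
        Psi s (q + 3) * tau s ^ 2 / (((q : ℚ) + 3) ^ 3 * f s (q + 3)) := by
    unfold Sg
    rw [show 2 * M + 1 - 2 * s = q + 1 + 1 + 1 by omega, sum_range_succ, sum_range_succ]
    push_cast
    rw [show (q : ℚ) + 1 + 1 = q + 2 by ring, show (q : ℚ) + 2 + 1 = q + 3 by ring]
  have uT := tau_U hM hm
  have uF1 : U p (f s (q + 1)) := f_U hM hm (by omega)
  have uF2 : U p (f s (q + 2)) := f_U hM hm (by omega)
  have uF3 : U p (f s (q + 3)) := f_U hM hm (by omega)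
  have hQ := Psi_I hM hm hP
  have hF2 := f_succ s (q + 1)
  have hF3 := f_succ s (q + 2)
  have hs3 := Psi_succ' s (q + 3)
  have hs2 := Psi_succ' s (q + 2)
  have hs1 := Psi_succ' s (q + 1)
  have hG : GH s (q + 1) = tau s ^ 2 * (32 * (4 * s + 2) / (4 * s + 1) ^ 2) /
      (f s (q + 1) * ((2 * ((q + 1 : ℕ) : ℚ) + 1 + 4 * s) * (2 * ((q + 1 : ℕ) : ℚ) + 3 + 4 * s))) :=
    rfl
  rw [show q + 1 + 1 = q + 2 by omega] at *
  rw [show q + 2 + 1 = q + 3 by omega] at *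
  generalize f s (q + 1) = F1 at *
  generalize f s (q + 2) = F2 at *
  generalize f s (q + 3) = F3 at *
  generalize Psi s (q + 3 + 1) = Q at *
  generalize Psi s (q + 3) = Q3 at *
  generalize Psi s (q + 2) = Q2 at *
  generalize Psi s (q + 1) = Q1 at *
  generalize tau s = t at *
  -- the prime
  have hPq : (p : ℚ) = 2 * q + 7 + 4 * s := by
    have : p = 2 * q + 7 + 4 * s := by omega
    exact_mod_cast this
  have a1 : U p ((p : ℚ) - 2) := by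
    have := uZ (p := p) (z := 2 * q + 5 + 4 * s) (by omega) (by rw [abs_lt]; omega)
    rw [hPq, show (2 * (q : ℚ) + 7 + 4 * s - 2) = 2 * q + 5 + 4 * s by ring]
    exact_mod_cast this
  have a2 : U p ((p : ℚ) - 4) := by
    have := uZ (p := p) (z := 2 * q + 3 + 4 * s) (by omega) (by rw [abs_lt]; omega)
    rw [hPq, show (2 * (q : ℚ) + 7 + 4 * s - 4) = 2 * q + 3 + 4 * s by ring]
    exact_mod_cast this
  have a3 : U p ((p : ℚ) - 1 - 4 * s) := by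
    have := uZ (p := p) (z := 2 * q + 6) (by omega) (by rw [abs_lt]; omega)
    rw [hPq, show (2 * (q : ℚ) + 7 + 4 * s - 1 - 4 * s) = 2 * q + 6 by ring]
    exact_mod_cast this
  have a4 : U p ((p : ℚ) - 3 - 4 * s) := by
    have := uZ (p := p) (z := 2 * q + 4) (by omega) (by rw [abs_lt]; omega)
    rw [hPq, show (2 * (q : ℚ) + 7 + 4 * s - 3 - 4 * s) = 2 * q + 4 by ring]
    exact_mod_cast this
  have b1 : U p (4 * (s : ℚ) + 1) := by
    have := uZ (p := p) (z := 4 * s + 1) (by omega) (by rw [abs_lt]; omega)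
    exact_mod_cast this
  have b3 : U p (4 * (s : ℚ) + 3) := by
    have := uZ (p := p) (z := 4 * s + 3) (by omega) (by rw [abs_lt]; omega)
    exact_mod_cast this
  have hsm : (s : ℚ) ∈ Zp p := nat_mem s
  have hv1 : 1 / (4 * (s : ℚ) + 1) ∈ Zp p := dmem (one_mem _) b1
  have hv3 : 1 / (4 * (s : ℚ) + 3) ∈ Zp p := dmem (one_mem _) b3
  have eP : EQ p 1 (p : ℚ) 0 := EQ.of_I I_p
  have c2 : EQ p 1 (2 : ℚ) 2 := EQ.refl (nm 2)
  have c4 : EQ p 1 (4 : ℚ) 4 := EQ.refl (nm 4)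
  have c3 : EQ p 1 (3 : ℚ) 3 := EQ.refl (nm 3)
  have c1 : EQ p 1 (1 : ℚ) 1 := EQ.refl (one_mem _)
  have cs : EQ p 1 (4 * (s : ℚ)) (4 * s) := EQ.refl (mul_mem (nm 4) hsm)
  have E1 := EQ_inv (eP.sub c2) a1
  have E2 := EQ_inv (eP.sub c4) a2
  have E3 := EQ_inv ((eP.sub c1).sub cs) a3
  have E4 := EQ_inv ((eP.sub c3).sub cs) a4
  have hPh := Ph_EQ hsm hv1 hv3 eP E1 E2 E3 E4
  have hz : Ph s (1 / (4 * (s : ℚ) + 1)) (1 / (4 * s + 3)) 0 (1 / (0 - 2)) (1 / (0 - 4))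
      (1 / (0 - 1 - 4 * s)) (1 / (0 - 3 - 4 * s)) = 0 := by
    refine Eq.trans ?_ (Ph_zero s)
    rw [show (1 / (0 - 2) : ℚ) = -1 / 2 by norm_num, show (1 / (0 - 4) : ℚ) = -1 / 4 by norm_num,
      show (0 - 1 - 4 * (s : ℚ)) = -(4 * s + 1) by ring,
      show (0 - 3 - 4 * (s : ℚ)) = -(4 * s + 3) by ring, one_div_neg_eq_neg_one_div,
      one_div_neg_eq_neg_one_div]
  rw [hz] at hPh
  have hPhI := hPh.2.2
  rw [sub_zero] at hPhI
  -- the three terms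
  have x1 : (2 * ((q + 1 : ℕ) : ℚ) + 1 + 4 * s) = p - 4 := by rw [hPq]; push_cast; ring
  have x2 : (2 * ((q + 1 : ℕ) : ℚ) + 3 + 4 * s) = p - 2 := by rw [hPq]; push_cast; ring
  have x3 : (q : ℚ) + 2 = (p - 3 - 4 * s) / 2 := by rw [hPq]; ring
  have x4 : (q : ℚ) + 3 = (p - 1 - 4 * s) / 2 := by rw [hPq]; ring
  have r2 : F2 = F1 * (((p : ℚ) - 4) * (p - 4 - 8 * s) * (p - 4 - 4 * s) *
      (1 / (p - 3 - 4 * s)) ^ 3) := by
    rw [hF2]
    have := a4.1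
    have e1 : ((q + 1 : ℕ) : ℚ) + 1 = (p - 3 - 4 * s) / 2 := by rw [hPq]; push_cast; ring
    have e2 : (2 * ((q + 1 : ℕ) : ℚ) + 1 - 4 * s) = p - 4 - 8 * s := by rw [hPq]; push_cast; ring
    have e3 : (2 * ((q + 1 : ℕ) : ℚ) + 1) = p - 4 - 4 * s := by rw [hPq]; push_cast; ring
    rw [x1, e1, e2, e3]
    field_simp
    ring
  have r1 : F3 = F2 * (((p : ℚ) - 2) * (p - 2 - 8 * s) * (p - 2 - 4 * s) *
      (1 / (p - 1 - 4 * s)) ^ 3) := by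
    rw [hF3]
    have := a3.1
    have e1 : ((q + 2 : ℕ) : ℚ) + 1 = (p - 1 - 4 * s) / 2 := by rw [hPq]; push_cast; ring
    have e2 : (2 * ((q + 2 : ℕ) : ℚ) + 1 - 4 * s) = p - 2 - 8 * s := by rw [hPq]; push_cast; ring
    have e3 : (2 * ((q + 2 : ℕ) : ℚ) + 1) = p - 2 - 4 * s := by rw [hPq]; push_cast; ring
    have e4 : (2 * ((q + 2 : ℕ) : ℚ) + 1 + 4 * s) = p - 2 := by rw [hPq]; push_cast; ring
    rw [e4, e1, e2, e3]
    field_simp
    ring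
  rw [x1, x2] at hG key
  rw [x3, x4] at h2
  have hI : I p 1 (t ^ 2 * Ph s (1 / (4 * (s : ℚ) + 1)) (1 / (4 * s + 3)) p (1 / (p - 2))
      (1 / (p - 4)) (1 / (p - 1 - 4 * s)) (1 / (p - 3 - 4 * s)) -
      Q * (t ^ 2 * ((32 * (4 * s + 2) * (1 / (4 * (s : ℚ) + 1)) ^ 2 * (1 / (p - 2)) *
        (1 / (p - 4))) * F1⁻¹ + 8 * (1 / (p - 3 - 4 * s)) ^ 3 * F2⁻¹ +
          8 * (1 / (p - 1 - 4 * s)) ^ 3 * F3⁻¹))) := by
    refine (hPhI.mulL (pow_mem uT.2.1 2)).sub (hQ.mulR (mul_mem (pow_mem uT.2.1 2) ?_))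
    have m1 : 1 / ((p : ℚ) - 2) ∈ Zp p := dmem (one_mem _) a1
    have m2 : 1 / ((p : ℚ) - 4) ∈ Zp p := dmem (one_mem _) a2
    have m3 : 1 / ((p : ℚ) - 1 - 4 * s) ∈ Zp p := dmem (one_mem _) a3
    have m4 : 1 / ((p : ℚ) - 3 - 4 * s) ∈ Zp p := dmem (one_mem _) a4
    exact add_mem (add_mem (mul_mem (mul_mem (mul_mem (mul_mem (mul_mem (nm 32)
      (add_mem (mul_mem (nm 4) hsm) (nm 2))) (pow_mem hv1 2)) m1) m2) uF1.2.2)
      (mul_mem (mul_mem (nm 8) (pow_mem m4 3)) uF2.2.2))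
      (mul_mem (mul_mem (nm 8) (pow_mem m3 3)) uF3.2.2)
  refine icg hI ?_
  rw [h1, h2]
  have k2 := a1.1
  have k4 := a2.1
  have k1 := a3.1
  have k3 := a4.1
  have kv1 := b1.1
  have kv3 := b3.1
  have kF1 := uF1.1
  have kF2 := uF2.1
  have kF3 := uF3.1
  have t1 : Q1 * GH s (q + 1) = Q * (t ^ 2 * ((32 * (4 * s + 2) * (1 / (4 * (s : ℚ) + 1)) ^ 2 *
      (1 / (p - 2)) * (1 / (p - 4))) * F1⁻¹)) - t ^ 2 * ((1 + ((p : ℚ) - 4) * (p - 4 - 8 * s) *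
      (p - 4 - 4 * s) * (1 / (p - 3 - 4 * s)) ^ 3 *
      (1 + ((p : ℚ) - 2) * (p - 2 - 8 * s) * (p - 2 - 4 * s) * (1 / (p - 1 - 4 * s)) ^ 3)) *
      (32 * (4 * s + 2) * (1 / (4 * (s : ℚ) + 1)) ^ 2 * (1 / (p - 2)) * (1 / (p - 4)))) := by
    have e : Q1 = Q - F1 - F2 - F3 := by rw [hs3, hs2, hs1]; ring
    rw [e, hG, r1, r2]
    field_simp
    ring
  have t2 : Q2 * t ^ 2 / ((((p : ℚ) - 3 - 4 * s) / 2) ^ 3 * F2) =
      Q * (t ^ 2 * (8 * (1 / (p - 3 - 4 * s)) ^ 3 * F2⁻¹)) - t ^ 2 * (8 * (1 + ((p : ℚ) - 2) *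
      (p - 2 - 8 * s) * (p - 2 - 4 * s) * (1 / (p - 1 - 4 * s)) ^ 3) *
      (1 / (p - 3 - 4 * s)) ^ 3) := by
    have e : Q2 = Q - F2 - F3 := by rw [hs3, hs2]; ring
    rw [e, r1]
    field_simp
    ring
  have t3 : Q3 * t ^ 2 / ((((p : ℚ) - 1 - 4 * s) / 2) ^ 3 * F3) =
      Q * (t ^ 2 * (8 * (1 / (p - 1 - 4 * s)) ^ 3 * F3⁻¹)) -
        t ^ 2 * (8 * (1 / (p - 1 - 4 * s)) ^ 3) := by
    have e : Q3 = Q - F3 := by rw [hs3]; ring
    rw [e]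
    field_simp
    ring
  rw [t1] at key
  rw [t2, t3]
  have e5 : 16 * (4 * (s : ℚ) + 2) * t ^ 2 / (4 * s + 1) ^ 4 =
      t ^ 2 * (16 * (4 * s + 2) * (1 / (4 * (s : ℚ) + 1)) ^ 4) := by
    field_simp
  have e6 : 16 * (4 * (s : ℚ) + 2) * (4 * s + 3) ^ 2 / (4 * s + 1) ^ 4 =
      16 * (4 * s + 2) * (4 * s + 3) ^ 2 * (1 / (4 * (s : ℚ) + 1)) ^ 4 := by
    field_simp
  have e7 : 16 * (4 * (s : ℚ) + 2) / (4 * s + 1) ^ 2 =
      16 * (4 * s + 2) * (1 / (4 * (s : ℚ) + 1)) ^ 2 := by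
    field_simp
  rw [e6, e7] at key
  rw [e5]
  unfold Ph
  linear_combination -key

theorem main (hZ : S_Z) (hP : S_P) : S_G := by
  intro p M _ hM s hs
  obtain ⟨m, hm⟩ : ∃ m, m + 2 * s = 2 * M + 1 := ⟨2 * M + 1 - 2 * s, by omega⟩
  by_cases h : m = 1
  · have e : s = M := by omega
    subst e
    exact case_one hM
  · obtain ⟨q, rfl⟩ : ∃ q, m = q + 3 := ⟨m - 3, by omega⟩
    exact case_big hZ hP hM hm

end Pool.Agent.H169.CW64G
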